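import Pool.Agent.Helper40_Cplx.Count

set_option autoImplicit false

/-!
The number of binary subword complexity sequences grows subexponentially, so it is not asymptotic to
`2 ^ (n / 2)`.
-/

namespace Pool.Agent.Results.MP_d47c21_co.Subexponential

open Pool.Agent.Helper40_Cplx

/-- The number `p_w(i)` of distinct factors (contiguous blocks) of length `i` of the word `w`. -/
noncomputable def complexity {k : ℕ} (w : List (Fin k)) (i : ℕ) : ℕ :=
  Set.ncard {u : List (Fin k) | u.length = i ∧ u <:+: w}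

/-- The number `a_k(n)` of distinct vectors `(p_w(1), …, p_w(n))`, where `w` ranges over the words of
length `n` over the alphabet `Fin k`. -/
noncomputable def numSeq (k n : ℕ) : ℕ :=
  Set.ncard {p : Fin n → ℕ | ∃ w : List (Fin k), w.length = n ∧
    ∀ i : Fin n, p i = complexity w (i + 1)}

/-- A word as a function. -/
def wf (l : List (Fin 2)) : ℕ → Fin 2 := fun i => l.getD i 0

lemma ctx_reverse (l : List (Fin 2)) {i z : ℕ} (h1 : i ≤ z) (h2 : z ≤ l.length) :
    (ctx (wf l) i z).reverse = (l.drop (z - i)).take i := by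
  apply List.ext_getElem
  · rw [List.length_reverse, length_ctx, List.length_take, List.length_drop]
    omega
  · intro t ht1 ht2
    rw [List.length_reverse, length_ctx] at ht1
    rw [List.getElem_reverse, List.getElem_take, List.getElem_drop]
    simp only [ctx, List.getElem_map, List.getElem_range, List.length_map, List.length_range]
    unfold wf
    have e : z - 1 - (i - 1 - t) = z - i + t := by omega
    rw [e, List.getD_eq_getElem]

lemma complexity_eq (l : List (Fin 2)) (i : ℕ) :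
    complexity l i = (F (wf l) l.length i).card := by
  have h1 : {u : List (Fin 2) | u.length = i ∧ u <:+: l} =
      (((F (wf l) l.length i).image List.reverse : Finset (List (Fin 2))) :
        Set (List (Fin 2))) := by
    ext u
    simp only [Set.mem_ofPred_eq, Finset.coe_image, Set.mem_image, Finset.mem_coe, F,
      Finset.mem_Icc]
    constructor
    · rintro ⟨hu, s, t, hst⟩
      refine ⟨_, ⟨s.length + i, ⟨by omega, ?_⟩, rfl⟩, ?_⟩
      · rw [← hst, List.length_append, List.length_append]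
        omega
      · rw [ctx_reverse l (by omega) (by
          rw [← hst, List.length_append, List.length_append]
          omega)]
        have e : s.length + i - i = s.length := by omega
        rw [e, ← hst, List.append_assoc, List.drop_left, ← hu, List.take_left]
    · rintro ⟨_, ⟨z, ⟨h1, h2⟩, rfl⟩, rfl⟩
      rw [ctx_reverse l h1 h2]
      refine ⟨?_, ?_⟩
      · rw [List.length_take, List.length_drop]
        omega
      · exact (List.take_prefix _ _).isInfix.trans (List.drop_suffix _ _).isInfix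
  unfold complexity
  rw [h1, Set.ncard_coe_finset, Finset.card_image_of_injective _ List.reverse_injective]

lemma finite_words (n : ℕ) : {w : List (Fin 2) | w.length = n}.Finite :=
  List.finite_length_eq (Fin 2) n

lemma numSeq_le_pow (n : ℕ) : numSeq 2 n ≤ 2 ^ n := by
  unfold numSeq
  have h1 : {p : Fin n → ℕ | ∃ w : List (Fin 2), w.length = n ∧
      ∀ i : Fin n, p i = complexity w (i + 1)} ⊆
      (fun (v : Fin n → Fin 2) (i : Fin n) => complexity (List.ofFn v) (i + 1)) '' Set.univ := by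
    rintro p ⟨w, hw, hp⟩
    subst hw
    refine ⟨fun i => w.get i, trivial, ?_⟩
    funext i
    rw [hp i]
    simp only [List.ofFn_get]
  refine le_trans (Set.ncard_le_ncard h1 (Set.finite_univ.image _)) ?_
  refine le_trans (Set.ncard_image_le Set.finite_univ) ?_
  rw [Set.ncard_univ, Nat.card_eq_fintype_card, Fintype.card_fun, Fintype.card_fin,
    Fintype.card_fin]

/-- The main counting bound. -/
lemma numSeq_le_codes (n h : ℕ) (hh : 1 ≤ h) (hn : 2 * h ≤ n) :
    numSeq 2 n ≤ (codes n h).card := by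
  unfold numSeq
  rw [← Set.ncard_coe_finset]
  set P : Set (Fin n → ℕ) := {p : Fin n → ℕ | ∃ w : List (Fin 2), w.length = n ∧
    ∀ i : Fin n, p i = complexity w (i + 1)} with hP
  have hex : ∀ p ∈ P, ∃ w : List (Fin 2), w.length = n ∧
      ∀ i : Fin n, p i = complexity w (i + 1) := fun p hp => hp
  choose! W hW1 hW2 using hex
  apply Set.ncard_le_ncard_of_injOn (fun p => code (wf (W p)) n (2 * h))
  · intro p _
    exact code_mem (wf (W p)) n hh hn
  · intro p hp q hq hpq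
    funext i
    rw [hW2 p hp i, hW2 q hq i]
    have hi : (i : ℕ) + 1 ≤ n := i.2
    rw [complexity_eq, complexity_eq, hW1 p hp, hW1 q hq]
    exact code_F n hpq _ hi

lemma bound_large (n : ℕ) (hn : 64 ≤ n) :
    (numSeq 2 n : ℝ) ≤ ((n : ℝ) + 1) ^ (78 * (n : ℝ) ^ ((2 : ℝ) / 3)) := by
  set x : ℝ := (n : ℝ) ^ ((1 : ℝ) / 3) with hx
  have hnR : (64 : ℝ) ≤ n := by exact_mod_cast hn
  have hn0 : (0 : ℝ) < n := by linarith
  have hx3 : x ^ 3 = n := by
    rw [hx, ← Real.rpow_natCast, ← Real.rpow_mul hn0.le]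
    norm_num
  have hx2 : (n : ℝ) ^ ((2 : ℝ) / 3) = x ^ 2 := by
    rw [hx, ← Real.rpow_natCast, ← Real.rpow_mul hn0.le]
    norm_num
  have hx4 : 4 ≤ x := by
    have h1 : (4 : ℝ) ^ 3 ≤ x ^ 3 := by rw [hx3]; linarith
    exact le_of_pow_le_pow_left₀ (by norm_num) (Real.rpow_nonneg hn0.le _) h1
  rw [hx2]
  set h : ℕ := ⌈x ^ 2⌉₊ with hh
  have hh1 : x ^ 2 ≤ h := Nat.le_ceil _
  have hh2 : (h : ℝ) < x ^ 2 + 1 := Nat.ceil_lt_add_one (by positivity)
  have hh0 : 1 ≤ h := by
    have : (0 : ℝ) < h := lt_of_lt_of_le (by positivity) hh1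
    exact_mod_cast this
  have hhn : 2 * h ≤ n := by
    have h1 : (2 : ℝ) * h ≤ n := by
      rw [← hx3]
      nlinarith
    exact_mod_cast h1
  have h1 := numSeq_le_codes n h hh0 hhn
  have h2 := codes_card n h
  set E : ℕ := 2 * ((n / h + 1) * (n / (h / 8 + 1) + 1)) with hE
  have h3 : numSeq 2 n ≤ (n + 1) ^ (2 * h + 2 + 2 * E) := by
    refine le_trans h1 (le_trans h2 ?_)
    have h4 : (n * (n + 1) + 1) ^ E ≤ (n + 1) ^ (2 * E) := by
      rw [pow_mul (n + 1) 2 E]
      apply Nat.pow_le_pow_left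
      nlinarith
    calc (n + 1) * ((n + 1) ^ (2 * h + 1) * (n * (n + 1) + 1) ^ E) ≤
          (n + 1) * ((n + 1) ^ (2 * h + 1) * (n + 1) ^ (2 * E)) := by gcongr
      _ = (n + 1) ^ (2 * h + 2 + 2 * E) := by ring
  have hE1 : (E : ℝ) ≤ 36 * x ^ 2 := by
    have h5 : ((n / h : ℕ) : ℝ) ≤ x := by
      refine le_trans Nat.cast_div_le ?_
      rw [div_le_iff₀ (by exact_mod_cast hh0), ← hx3]
      nlinarith
    have h6 : ((n / (h / 8 + 1) : ℕ) : ℝ) ≤ 8 * x := by
      refine le_trans Nat.cast_div_le ?_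
      have h7 : (h : ℝ) / 8 ≤ ((h / 8 + 1 : ℕ) : ℝ) := by
        have h8 : h ≤ 8 * (h / 8 + 1) := by omega
        have h9 : (h : ℝ) ≤ 8 * ((h / 8 + 1 : ℕ) : ℝ) := by exact_mod_cast h8
        linarith
      rw [div_le_iff₀ (by positivity), ← hx3]
      nlinarith
    rw [hE]
    push_cast at h5 h6 ⊢
    have h10 : (0 : ℝ) ≤ ((n / (h / 8 + 1) : ℕ) : ℝ) := Nat.cast_nonneg _
    have h11 : (0 : ℝ) ≤ ((n / h : ℕ) : ℝ) := Nat.cast_nonneg _
    have h12 : (((n / h : ℕ) : ℝ) + 1) * (((n / (h / 8 + 1) : ℕ) : ℝ) + 1) ≤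
        (2 * x) * (9 * x) := by
      apply mul_le_mul
      · linarith
      · linarith
      · linarith
      · linarith
    nlinarith
  have h13 : ((2 * h + 2 + 2 * E : ℕ) : ℝ) ≤ 78 * x ^ 2 := by
    push_cast
    nlinarith
  have h14 : (numSeq 2 n : ℝ) ≤ ((n : ℝ) + 1) ^ (2 * h + 2 + 2 * E) := by exact_mod_cast h3
  refine le_trans h14 ?_
  rw [← Real.rpow_natCast]
  exact Real.rpow_le_rpow_of_exponent_le (by linarith) h13

lemma bound_all (n : ℕ) :
    (numSeq 2 n : ℝ) ≤ ((n : ℝ) + 1) ^ (78 * (n : ℝ) ^ ((2 : ℝ) / 3)) := by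
  rcases Nat.lt_or_ge n 64 with hn | hn
  · rcases Nat.eq_zero_or_pos n with h0 | h0
    · subst h0
      have := numSeq_le_pow 0
      have h1 : (numSeq 2 0 : ℝ) ≤ 1 := by exact_mod_cast this
      simpa using h1
    · have h1 : (numSeq 2 n : ℝ) ≤ 2 ^ n := by exact_mod_cast numSeq_le_pow n
      refine le_trans h1 ?_
      have hn1 : (1 : ℝ) ≤ n := by exact_mod_cast h0
      have hn64 : (n : ℝ) ≤ 64 := by exact_mod_cast hn.le
      have h2 : (n : ℝ) ≤ 78 * (n : ℝ) ^ ((2 : ℝ) / 3) := by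
        have h3 : (n : ℝ) = (n : ℝ) ^ ((2 : ℝ) / 3) * (n : ℝ) ^ ((1 : ℝ) / 3) := by
          rw [← Real.rpow_add (by linarith)]
          norm_num
        have h4 : (n : ℝ) ^ ((1 : ℝ) / 3) ≤ 78 := by
          calc (n : ℝ) ^ ((1 : ℝ) / 3) ≤ (n : ℝ) ^ (1 : ℝ) :=
                Real.rpow_le_rpow_of_exponent_le hn1 (by norm_num)
            _ = n := Real.rpow_one _
            _ ≤ 78 := by linarith
        have h5 : 0 ≤ (n : ℝ) ^ ((2 : ℝ) / 3) := Real.rpow_nonneg (by linarith) _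
        calc (n : ℝ) = (n : ℝ) ^ ((2 : ℝ) / 3) * (n : ℝ) ^ ((1 : ℝ) / 3) := h3
          _ ≤ (n : ℝ) ^ ((2 : ℝ) / 3) * 78 := mul_le_mul_of_nonneg_left h4 h5
          _ = 78 * (n : ℝ) ^ ((2 : ℝ) / 3) := mul_comm _ _
      calc (2 : ℝ) ^ n = (2 : ℝ) ^ (n : ℝ) := (Real.rpow_natCast _ _).symm
        _ ≤ (2 : ℝ) ^ (78 * (n : ℝ) ^ ((2 : ℝ) / 3)) :=
            Real.rpow_le_rpow_of_exponent_le (by norm_num) h2
        _ ≤ ((n : ℝ) + 1) ^ (78 * (n : ℝ) ^ ((2 : ℝ) / 3)) := by
            apply Real.rpow_le_rpow (by norm_num) (by linarith)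
            have : 0 ≤ (n : ℝ) ^ ((2 : ℝ) / 3) := Real.rpow_nonneg (by linarith) _
            positivity
  · exact bound_large n hn

/-- The number of binary subword complexity sequences is at most `(n + 1) ^ (78 n ^ (2/3))` for every
`n`; in particular `a_2(n) / 2 ^ (n / 2)` does not converge to `1` (it converges to `0`). -/
theorem result :
    (∀ n : ℕ, (numSeq 2 n : ℝ) ≤ ((n : ℝ) + 1) ^ (78 * (n : ℝ) ^ ((2 : ℝ) / 3))) ∧
    Filter.Tendsto (fun n : ℕ => (numSeq 2 n : ℝ) / 2 ^ ((n : ℝ) / 2)) Filter.atTop (nhds 0) ∧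
    ¬ Filter.Tendsto (fun n : ℕ => (numSeq 2 n : ℝ) / 2 ^ ((n : ℝ) / 2)) Filter.atTop
      (nhds 1) := by
  have hlim : Filter.Tendsto (fun n : ℕ => (numSeq 2 n : ℝ) / 2 ^ ((n : ℝ) / 2)) Filter.atTop
      (nhds 0) := by
    have hl2 : 0 < Real.log 2 := Real.log_pos (by norm_num)
    have h1 : ∀ᶠ n : ℕ in Filter.atTop, (numSeq 2 n : ℝ) / 2 ^ ((n : ℝ) / 2) ≤
        Real.exp (-(Real.log 2 / 4 * n)) := by
      have h2 : Filter.Tendsto (fun n : ℕ => (n : ℝ) ^ ((1 : ℝ) / 6)) Filter.atTop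
          Filter.atTop := (tendsto_rpow_atTop (by norm_num)).comp tendsto_natCast_atTop_atTop
      filter_upwards [h2.eventually_ge_atTop (936 * 4 / Real.log 2),
        Filter.eventually_ge_atTop 1] with n hn hn1
      have hn1R : (1 : ℝ) ≤ n := by exact_mod_cast hn1
      have hn0 : (0 : ℝ) < n := by linarith
      have h3 := bound_all n
      have h4 : ((n : ℝ) + 1) ^ (78 * (n : ℝ) ^ ((2 : ℝ) / 3)) =
          Real.exp (Real.log ((n : ℝ) + 1) * (78 * (n : ℝ) ^ ((2 : ℝ) / 3))) :=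
        Real.rpow_def_of_pos (by linarith) _
      have h5 : (2 : ℝ) ^ ((n : ℝ) / 2) = Real.exp (Real.log 2 * ((n : ℝ) / 2)) :=
        Real.rpow_def_of_pos (by norm_num) _
      have hlog : Real.log ((n : ℝ) + 1) ≤ 12 * (n : ℝ) ^ ((1 : ℝ) / 6) := by
        have h6 := Real.log_le_rpow_div (x := (n : ℝ) + 1) (by linarith)
          (show (0 : ℝ) < 1 / 6 by norm_num)
        have h7 : ((n : ℝ) + 1) ^ ((1 : ℝ) / 6) ≤ 2 * (n : ℝ) ^ ((1 : ℝ) / 6) := by
          calc ((n : ℝ) + 1) ^ ((1 : ℝ) / 6) ≤ (2 * (n : ℝ)) ^ ((1 : ℝ) / 6) :=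
                Real.rpow_le_rpow (by linarith) (by linarith) (by norm_num)
            _ = 2 ^ ((1 : ℝ) / 6) * (n : ℝ) ^ ((1 : ℝ) / 6) :=
                Real.mul_rpow (by norm_num) hn0.le
            _ ≤ 2 * (n : ℝ) ^ ((1 : ℝ) / 6) := by
                apply mul_le_mul_of_nonneg_right _ (Real.rpow_nonneg hn0.le _)
                calc (2 : ℝ) ^ ((1 : ℝ) / 6) ≤ (2 : ℝ) ^ (1 : ℝ) :=
                      Real.rpow_le_rpow_of_exponent_le (by norm_num) (by norm_num)
                  _ = 2 := Real.rpow_one _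
        have h8 : ((n : ℝ) + 1) ^ ((1 : ℝ) / 6) / (1 / 6) ≤ 12 * (n : ℝ) ^ ((1 : ℝ) / 6) := by
          rw [div_le_iff₀ (by norm_num)]
          linarith
        linarith
      have h56 : (n : ℝ) ^ ((1 : ℝ) / 6) * (n : ℝ) ^ ((2 : ℝ) / 3) * (n : ℝ) ^ ((1 : ℝ) / 6) =
          n := by
        rw [← Real.rpow_add hn0, ← Real.rpow_add hn0]
        norm_num
      have hy0 : 0 ≤ (n : ℝ) ^ ((1 : ℝ) / 6) * (n : ℝ) ^ ((2 : ℝ) / 3) :=
        mul_nonneg (Real.rpow_nonneg hn0.le _) (Real.rpow_nonneg hn0.le _)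
      have h9 : Real.log ((n : ℝ) + 1) * (78 * (n : ℝ) ^ ((2 : ℝ) / 3)) ≤
          Real.log 2 / 4 * n := by
        have h10 : 936 * 4 ≤ (n : ℝ) ^ ((1 : ℝ) / 6) * Real.log 2 := (div_le_iff₀ hl2).1 hn
        have h11 : 0 ≤ (n : ℝ) ^ ((2 : ℝ) / 3) := Real.rpow_nonneg hn0.le _
        calc Real.log ((n : ℝ) + 1) * (78 * (n : ℝ) ^ ((2 : ℝ) / 3)) ≤
              12 * (n : ℝ) ^ ((1 : ℝ) / 6) * (78 * (n : ℝ) ^ ((2 : ℝ) / 3)) :=
              mul_le_mul_of_nonneg_right hlog (by positivity)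
          _ = 936 * 4 * ((n : ℝ) ^ ((1 : ℝ) / 6) * (n : ℝ) ^ ((2 : ℝ) / 3)) / 4 := by ring
          _ ≤ ((n : ℝ) ^ ((1 : ℝ) / 6) * Real.log 2) *
                ((n : ℝ) ^ ((1 : ℝ) / 6) * (n : ℝ) ^ ((2 : ℝ) / 3)) / 4 := by
              have := mul_le_mul_of_nonneg_right h10 hy0
              linarith
          _ = Real.log 2 / 4 * ((n : ℝ) ^ ((1 : ℝ) / 6) * (n : ℝ) ^ ((2 : ℝ) / 3) *
                (n : ℝ) ^ ((1 : ℝ) / 6)) := by ring
          _ = Real.log 2 / 4 * n := by rw [h56]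
      rw [div_le_iff₀ (by positivity), h5, ← Real.exp_add]
      refine le_trans h3 ?_
      rw [h4]
      apply Real.exp_le_exp.2
      linarith
    have h6 : Filter.Tendsto (fun n : ℕ => Real.exp (-(Real.log 2 / 4 * n))) Filter.atTop
        (nhds 0) := by
      apply Real.tendsto_exp_neg_atTop_nhds_zero.comp
      exact Filter.Tendsto.const_mul_atTop (by positivity) tendsto_natCast_atTop_atTop
    exact squeeze_zero' (Filter.Eventually.of_forall fun n => by positivity) h1 h6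
  refine ⟨bound_all, hlim, fun h => ?_⟩
  have := tendsto_nhds_unique hlim h
  norm_num at this

end Pool.Agent.Results.MP_d47c21_co.Subexponential
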